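import Pool.Agent.Q4.SPC.Stm5

/-! Project SPC (helper4), job TR: transport of the structure `M.Sys` along isomorphisms. -/

set_option autoImplicit false

namespace Pool.Agent.Q190.SPC

open Q4.SPC

theorem t_TR : Q4.SPC.TR := by
  intro G G' H H' D D' _ _ _ _ _ _ ι Γ det U ι' Γ' det' U' e eH h1 h2 h3 h4 S
  refine ⟨?_, ?_, ?_, ?_, ?_, ?_⟩
  · intro M N hMN g hg
    rw [h4] at hg ⊢
    exact S.mono M N hMN hg
  · intro M v hv u hu
    rw [h4] at hv hu ⊢
    rw [map_mul, map_mul, map_inv]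
    exact S.nrm M _ hv _ hu
  · intro g N hN
    obtain ⟨M, hM, hNM, h⟩ := S.den (e g) N hN
    refine ⟨M, hM, hNM, fun u hu => ?_⟩
    rw [h4] at hu ⊢
    rw [map_mul, map_mul, map_inv]
    exact h _ hu
  · intro s hs M hM
    obtain ⟨γ, hγ, hd, h⟩ := S.dns (e s) ((h3 s).1 hs) M hM
    refine ⟨eH.symm γ, ?_, ?_, ?_⟩
    · rw [h2, MulEquiv.apply_symm_apply]; exact hγ
    · rw [h3, h1, MulEquiv.apply_symm_apply]; exact hd
    · rw [h4, map_mul, map_inv, h1, MulEquiv.apply_symm_apply]; exact h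
  · intro A _ N hN φ hφ γ hγ hγ1
    obtain ⟨M, hM, h⟩ := S.cen A N hN (fun x => φ (eH.symm x)) (by
      intro δ hδ δ' hδ' a b
      show φ (eH.symm (δ * δ')) = φ (eH.symm δ) + φ (eH.symm δ')
      rw [map_mul]
      apply hφ
      · rw [h2, MulEquiv.apply_symm_apply]; exact hδ
      · rw [h2, MulEquiv.apply_symm_apply]; exact hδ'
      · rw [h4, h1, MulEquiv.apply_symm_apply]; exact a
      · rw [h4, h1, MulEquiv.apply_symm_apply]; exact b)
      (eH γ) ((h2 γ).1 hγ) (by rw [← h1, ← h3]; exact hγ1)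
    refine ⟨M, hM, fun δ hδ hu => ?_⟩
    have h5 : φ (eH.symm ((eH γ)⁻¹ * eH δ * eH γ)) = φ (eH.symm (eH δ)) :=
      h (eH δ) ((h2 δ).1 hδ) (by rw [← h1, ← h4]; exact hu)
    rw [map_mul, map_mul, map_inv, MulEquiv.symm_apply_apply, MulEquiv.symm_apply_apply] at h5
    exact h5
  · intro M hM
    obtain ⟨X, hX⟩ := S.fin M hM
    refine ⟨X.map e.symm.toEquiv.toEmbedding, fun g => ?_⟩
    obtain ⟨γ, hγ, x, hx, u, hu, hg⟩ := hX (e g)
    refine ⟨eH.symm γ, ?_, e.symm x, ?_, e.symm u, ?_, ?_⟩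
    · rw [h2, MulEquiv.apply_symm_apply]; exact hγ
    · exact Finset.mem_map_of_mem e.symm.toEquiv.toEmbedding hx
    · rw [h4, MulEquiv.apply_symm_apply]; exact hu
    · apply e.injective
      rw [map_mul, map_mul, h1, MulEquiv.apply_symm_apply, MulEquiv.apply_symm_apply,
        MulEquiv.apply_symm_apply]
      exact hg

end Pool.Agent.Q190.SPC
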